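import Pool.Agent.L5helper4.VR.V9

set_option autoImplicit false

/-!
# A set of `N ^ (1 - o(1))` integers with the asymptotic formula for Vinogradov's system in the whole range

There is a set `A` of integers with at least `N ^ (1 - ε)` elements up to `N`, for every `ε > 0` and all large
`N`, such that for ALL `s, k ≥ 1` with `s ≤ k (k + 1) / 2`, also for `(s, k) = (3, 2)`, the number of the
solutions in `A_N = A ∩ [1, N]` of Vinogradov's system of degree `k` in `s` pairs of variables is
`(s! + o(1)) |A_N| ^ s`: almost all of them are diagonal. The range is sharp: for `s > k (k + 1) / 2` the number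
of solutions divided by `|A_N| ^ s` tends to infinity.
-/

namespace Pool.Agent.Results.MP_e21eee_nt.AlmostFullDensity

open Finset Filter Topology

open Classical in
/-- The solutions `(x, y)` with all variables in `A` of Vinogradov's system of degree `k` in `s` pairs of
variables. -/
noncomputable def solutions (s k : ℕ) (A : Finset ℕ) : Finset ((Fin s → ℕ) × (Fin s → ℕ)) :=
  ((Fintype.piFinset fun _ : Fin s => A) ×ˢ (Fintype.piFinset fun _ : Fin s => A)).filter
    (fun p => ∀ j : Fin k, ∑ i, p.1 i ^ (j.val + 1) = ∑ i, p.2 i ^ (j.val + 1))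

open Classical in
/-- The elements of `A` in `[1, N]`. -/
noncomputable def upTo (A : Set ℕ) (N : ℕ) : Finset ℕ := (Icc 1 N).filter (fun n => n ∈ A)

/-- **A set of almost full density with the asymptotic formula.** -/
theorem result : ∃ A : Set ℕ,
    (∀ ε : ℝ, 0 < ε → ∀ᶠ N : ℕ in atTop, (N : ℝ) ^ (1 - ε) ≤ ((upTo A N).card : ℝ)) ∧
    (∀ s k : ℕ, 1 ≤ s → 1 ≤ k → 2 * s ≤ k * (k + 1) →
      Tendsto (fun N => ((solutions s k (upTo A N)).card : ℝ) / ((upTo A N).card : ℝ) ^ s) atTop
        (𝓝 (s.factorial : ℝ))) ∧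
    ∀ s k : ℕ, 1 ≤ k → k * (k + 1) < 2 * s →
      Tendsto (fun N => ((solutions s k (upTo A N)).card : ℝ) / ((upTo A N).card : ℝ) ^ s) atTop atTop := by
  obtain ⟨A, h1, h2, h3⟩ := Pool.Agent.L5helper4.VR.dense_set
  exact ⟨A, h1, h2, h3⟩

end Pool.Agent.Results.MP_e21eee_nt.AlmostFullDensity
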