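import Pool.Agent.L5helper4.VS.S8

set_option autoImplicit false

/-!
# Random sets on the moment curve: bounded multiplicities and the restriction estimate without an `ε`

Let the integers `n ≥ 1` be chosen independently, `n` with a probability at most `C n ^ (-a)`, `0 < a < 1`, and
let `A` be the set of the chosen integers. Almost surely, for ALL `s, k` with `(1 - a) s < k (k + 1) / 2` (and
`a > 1 / 2` if `k ≥ 3`), every vector has a bounded number of representations as the sum of `s` points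
`(x, x ^ 2, …, x ^ k)`, `x ∈ A`; so the `2 s`-th moment of `∑ c_n e(α_1 n + … + α_k n ^ k)` over any finite subset
of `A` is at most `g (∑ |c_n| ^ 2) ^ s`, for ALL coefficients `c_n`. Both fail for `(1 - a) s > k (k + 1) / 2`.
-/

namespace Pool.Agent.Results.MP_e21eee_nt.BoundedRepresentations

open MeasureTheory ProbabilityTheory

/-- The set of the integers `n ≥ 1` for which the event `E n` occurs at `ω`. -/
def chosen {Ω : Type} (E : ℕ → Set Ω) (ω : Ω) : Set ℕ := {n | 1 ≤ n ∧ ω ∈ E n}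

/-- The `s`-tuples `x` of elements of `A` with `x_1 ^ j + … + x_s ^ j = h_j` for `1 ≤ j ≤ k`. -/
def representations (k s : ℕ) (A : Set ℕ) (h : Fin k → ℕ) : Set (Fin s → ℕ) :=
  {x | (∀ i, x i ∈ A) ∧ ∀ j : Fin k, ∑ i, x i ^ (j.val + 1) = h j}

/-- The exponential sum `∑_{n ∈ S} c_n e(α_1 n + … + α_k n ^ k)`, where `e(t) = exp(2πit)`. -/
noncomputable def weylSum (k : ℕ) (S : Finset ℕ) (c : ℕ → ℂ) (α : Fin k → ℝ) : ℂ :=
  ∑ n ∈ S, c n * Complex.exp (2 * Real.pi * Complex.I * ∑ j : Fin k, (α j : ℂ) * (n : ℂ) ^ (j.val + 1))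

/-- **Bounded multiplicities and the restriction estimate on random sets of density `n ^ (-a)`.** -/
theorem result {Ω : Type} [MeasurableSpace Ω] (μ : Measure Ω) [IsProbabilityMeasure μ] (E : ℕ → Set Ω)
    (hE : ∀ n, MeasurableSet (E n)) (hI : iIndepSet E μ) (a C : ℝ) (ha : 0 < a) (ha1 : a < 1)
    (hp : ∀ n : ℕ, 1 ≤ n → μ.real (E n) ≤ C * (n : ℝ) ^ (-a)) :
    (∀ᵐ ω ∂μ, ∀ s k : ℕ, 1 ≤ k → (1 / 2 < a ∨ k ≤ 2) → (1 - a) * s < (k : ℝ) * (k + 1) / 2 →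
      ∃ g : ℕ, (∀ h : Fin k → ℕ, (representations k s (chosen E ω) h).encard ≤ g) ∧
        ∀ S : Finset ℕ, (S : Set ℕ) ⊆ chosen E ω → ∀ c : ℕ → ℂ,
          ∫ α in Set.Icc (0 : Fin k → ℝ) 1, ‖weylSum k S c α‖ ^ (2 * s) ≤ g * (∑ n ∈ S, ‖c n‖ ^ 2) ^ s) ∧
    ∀ c : ℝ, 0 < c → (∀ n : ℕ, 1 ≤ n → c * (n : ℝ) ^ (-a) ≤ μ.real (E n)) →
      ∀ᵐ ω ∂μ, ∀ s k : ℕ, 1 ≤ k → (k : ℝ) * (k + 1) / 2 < (1 - a) * s → ∀ g : ℕ,
        ∃ S : Finset ℕ, (S : Set ℕ) ⊆ chosen E ω ∧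
          (g : ℝ) * (S.card : ℝ) ^ s <
            ∫ α in Set.Icc (0 : Fin k → ℝ) 1, ‖weylSum k S (fun _ => 1) α‖ ^ (2 * s) := by
  refine ⟨?_, fun c hc hlow => ?_⟩
  · filter_upwards [Pool.Agent.L5helper4.VS.main_ae μ E hI a C ha ha1 hp] with ω hω s k hk hak hsk
    obtain ⟨g, h1, h2⟩ := hω s k hk hak hsk
    refine ⟨g, h1, fun S hS c => ?_⟩
    have h3 := h2 S (fun n hn => hS hn) c
    simp only [Pool.Agent.L5helper4.VS.fs_eq] at h3
    exact h3
  · filter_upwards [Pool.Agent.L5helper4.VS.sharp_ae μ E hE hI a c C ha ha1 hc (fun n hn => ⟨hlow n hn, hp n hn⟩)]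
      with ω hω s k hk hsk g
    obtain ⟨S, h1, h2⟩ := hω s k hk hsk g
    refine ⟨S, fun n hn => h1 n hn, ?_⟩
    simp only [Pool.Agent.L5helper4.VS.fs_eq] at h2
    exact h2

end Pool.Agent.Results.MP_e21eee_nt.BoundedRepresentations
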