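import Pool.Agent.L5helper4.VR.V7

set_option autoImplicit false

/-!
# Vinogradov's system in random sets: no loss of an `ε`, with the sharp threshold

Let the integers `n ≥ 1` be chosen independently, `n` with a probability between `c n ^ (-a)` and `C n ^ (-a)`,
`0 < a < 1`, and let `A_N` be the set of the chosen integers up to `N`. Almost surely, for ALL `s, k ≥ 1`:
* if `(1 - a) s < k (k + 1) / 2`, all but `|A_N| ^ (s - δ)` of the solutions in `A_N` of Vinogradov's system of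
degree `k` in `s` pairs of variables are diagonal, and their number is `s! |A_N| ^ s + O(|A_N| ^ (s - δ))`;
* if `(1 - a) s > k (k + 1) / 2`, there are at least `|A_N| ^ (s + δ)` solutions.
The first range contains all `s ≤ k (k + 1) / 2`, also `(s, k) = (3, 2)`, for every `a > 0`.
-/

namespace Pool.Agent.Results.MP_e21eee_nt.RandomSets

open Finset MeasureTheory ProbabilityTheory Filter

open Classical in
/-- The solutions `(x, y)` with all variables in `A` of Vinogradov's system of degree `k` in `s` pairs of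
variables. -/
noncomputable def solutions (s k : ℕ) (A : Finset ℕ) : Finset ((Fin s → ℕ) × (Fin s → ℕ)) :=
  ((Fintype.piFinset fun _ : Fin s => A) ×ˢ (Fintype.piFinset fun _ : Fin s => A)).filter
    (fun p => ∀ j : Fin k, ∑ i, p.1 i ^ (j.val + 1) = ∑ i, p.2 i ^ (j.val + 1))

open Classical in
/-- The non-diagonal ones: `y` is not a permutation of `x`. -/
noncomputable def nonDiagonal (s k : ℕ) (A : Finset ℕ) : Finset ((Fin s → ℕ) × (Fin s → ℕ)) :=
  (solutions s k A).filter (fun p => ¬ ∃ σ : Equiv.Perm (Fin s), p.2 = p.1 ∘ σ)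

open Classical in
/-- The integers `1 ≤ n ≤ N` for which the event `E n` occurs at `ω`. -/
noncomputable def chosen {Ω : Type} (E : ℕ → Set Ω) (N : ℕ) (ω : Ω) : Finset ℕ :=
  (Icc 1 N).filter (fun n => ω ∈ E n)

/-- **Vinogradov's system in random sets of density `n ^ (-a)`.** -/
theorem result {Ω : Type} [MeasurableSpace Ω] (μ : Measure Ω) [IsProbabilityMeasure μ] (E : ℕ → Set Ω)
    (hE : ∀ n, MeasurableSet (E n)) (hI : iIndepSet E μ) (a c C : ℝ) (ha : 0 < a) (ha1 : a < 1) (hc : 0 < c)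
    (hp : ∀ n : ℕ, 1 ≤ n → c * (n : ℝ) ^ (-a) ≤ μ.real (E n) ∧ μ.real (E n) ≤ C * (n : ℝ) ^ (-a)) :
    ∀ᵐ ω ∂μ, ∀ s k : ℕ, 1 ≤ s → 1 ≤ k →
      ((1 - a) * s < (k : ℝ) * (k + 1) / 2 → ∃ δ : ℝ, 0 < δ ∧ ∀ᶠ N : ℕ in atTop,
        ((nonDiagonal s k (chosen E N ω)).card : ℝ) ≤ ((chosen E N ω).card : ℝ) ^ ((s : ℝ) - δ) ∧
        |((solutions s k (chosen E N ω)).card : ℝ) - s.factorial * ((chosen E N ω).card : ℝ) ^ s| ≤
          ((chosen E N ω).card : ℝ) ^ ((s : ℝ) - δ)) ∧
      ((k : ℝ) * (k + 1) / 2 < (1 - a) * s → ∃ δ : ℝ, 0 < δ ∧ ∀ᶠ N : ℕ in atTop,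
        ((chosen E N ω).card : ℝ) ^ ((s : ℝ) + δ) ≤ ((solutions s k (chosen E N ω)).card : ℝ)) := by
  filter_upwards [Pool.Agent.L5helper4.VR.random μ E hE hI a c C ha ha1 hc hp] with ω hω s k hs hk
  have h := hω s k hs hk
  rw [Pool.Agent.L5helper4.VR.sk_real] at h
  exact h

end Pool.Agent.Results.MP_e21eee_nt.RandomSets
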