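import Pool.Agent.L5helper96.VS.RL

/-! # Vinogradov's system: sparse sets of variables and sparse relations between the variables -/

set_option autoImplicit false

namespace Pool.Agent.Results.MP_e21eee_nt.SparseRelations

open Finset

open scoped Classical in
/-- The solutions `(x, y)` with all entries in `S` of Vinogradov's system of degree `k` in `s` pairs of variables. -/
noncomputable def sol (s k : ℕ) (S : Finset ℕ) : Finset ((Fin s → ℕ) × (Fin s → ℕ)) :=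
  ((Fintype.piFinset fun _ : Fin s => S) ×ˢ (Fintype.piFinset fun _ : Fin s => S)).filter fun p =>
    ∀ j : Fin k, ∑ i : Fin s, p.1 i ^ (j.val + 1) = ∑ i : Fin s, p.2 i ^ (j.val + 1)

open scoped Classical in
/-- The solutions `(x, y)` in `[1,N]` such that, for some permutation `σ`, at most `r` indices `i` have
`x_i ≠ y_{σ i}` and `(x_i, y_{σ i}) ∉ ρ`. -/
noncomputable def related (s k r N : ℕ) (ρ : Finset (ℕ × ℕ)) : Finset ((Fin s → ℕ) × (Fin s → ℕ)) :=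
  (sol s k (Icc 1 N)).filter fun p => ∃ σ : Equiv.Perm (Fin s),
    (univ.filter fun i => p.1 i ≠ p.2 (σ i) ∧ (p.1 i, p.2 (σ i)) ∉ ρ).card ≤ r

open scoped Classical in
/-- 1. Let `m, q ≥ 1`, `2 q m ≤ k` and `2 q (s - m) ≤ (2 q - 1) k (k + 1) / 2`. For every `ε > 0`, all `N`, all subsets
`S` of `[1,N]` and all sets `E` of pairs `(a, b)` of `m`-tuples with `a_i ≠ b_j` for all `i, j`, at most
`C N^ε |S|^(s-m) |E|^(1/2)` solutions in `S` have `((x_{ι 1}, ..., x_{ι m}), (y_{κ 1}, ..., y_{κ m})) ∈ E`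
(`ι, κ` injective).
2. Let `k ≥ 3` and `s ≤ k (k + 1) / 2`. For every finite set `D` of nonzero integers, at most
`C N^ε |D| |S|^(s-1/2)` solutions in `S` have `x_i - y_j ∈ D`.
3. Let `k ≥ 2`, `1 ≤ s ≤ k^2/2`, and `r ≤ k` or `2 r (r - 1) + 2 k + 5 < 3 k^2`. For every `δ > 0` there are `c > 0`
and `C` such that, for all `N` and all sets `ρ` of at most `N^(2-δ)` pairs of natural numbers, the number of solutions
in `[1,N]` for which, after some permutation of `y`, at most `r` pairs `(x_i, y_i)` are neither equal nor in `ρ`,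
differs from `s! N^s` by at most `C N^(s-c)`. -/
theorem result :
    (∀ k m q s : ℕ, 1 ≤ m → 1 ≤ q → 2 * q * m ≤ k → 4 * q * (s - m) ≤ (2 * q - 1) * (k * (k + 1)) →
      ∀ ε : ℝ, 0 < ε → ∃ C : ℝ, ∀ N : ℕ, 1 ≤ N → ∀ S : Finset ℕ, S ⊆ Icc 1 N →
        ∀ ι κ : Fin m → Fin s, Function.Injective ι → Function.Injective κ →
        ∀ E : Finset ((Fin m → ℕ) × (Fin m → ℕ)), (∀ e ∈ E, ∀ i j, e.1 i ≠ e.2 j) →
          (((sol s k S).filter fun p => (p.1 ∘ ι, p.2 ∘ κ) ∈ E).card : ℝ) ≤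
            C * (N : ℝ) ^ ε * (S.card : ℝ) ^ (s - m) * Real.sqrt (E.card : ℝ)) ∧
    (∀ k s : ℕ, 3 ≤ k → 2 * s ≤ k * (k + 1) →
      ∀ ε : ℝ, 0 < ε → ∃ C : ℝ, ∀ N : ℕ, 1 ≤ N → ∀ S : Finset ℕ, S ⊆ Icc 1 N →
        ∀ i j : Fin s, ∀ D : Finset ℤ, (0 : ℤ) ∉ D →
          (((sol s k S).filter fun p => (p.1 i : ℤ) - (p.2 j : ℤ) ∈ D).card : ℝ) ≤
            C * (N : ℝ) ^ ε * (D.card : ℝ) * (S.card : ℝ) ^ ((s : ℝ) - 1 / 2)) ∧
    (∀ k s r : ℕ, 2 ≤ k → 1 ≤ s → 2 * s ≤ k ^ 2 → (r ≤ k ∨ 2 * r * (r - 1) + 2 * k + 5 < 3 * k ^ 2) →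
      ∀ δ : ℝ, 0 < δ → ∃ c : ℝ, 0 < c ∧ ∃ C : ℝ, ∀ N : ℕ, 1 ≤ N →
        ∀ ρ : Finset (ℕ × ℕ), (ρ.card : ℝ) ≤ (N : ℝ) ^ (2 - δ) →
          |((related s k r N ρ).card : ℝ) - (s.factorial : ℝ) * (N : ℝ) ^ s| ≤ C * (N : ℝ) ^ ((s : ℝ) - c)) := by
  refine ⟨?_, ?_, ?_⟩
  · intro k m q s hm hq hkm hs ε hε
    obtain ⟨C, -, h⟩ := Pool.Agent.L5helper96.VS.part1 k m q s hm hq hkm hs ε hε
    refine ⟨C, fun N hN S hS ι κ hι hκ E hE => ?_⟩
    convert h N hN S hS ι κ hι hκ E hE using 4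
    rfl
  · intro k s hk hs ε hε
    obtain ⟨C, -, h⟩ := Pool.Agent.L5helper96.VS.part2 k s hk hs ε hε
    refine ⟨C, fun N hN S hS i j D hD => ?_⟩
    convert h N hN S hS i j D hD using 4
    rfl
  · intro k s r hk hs1 hs hr δ hδ
    obtain ⟨c, hc, C, h⟩ := Pool.Agent.L5helper96.VS.part3 k s r hk hs1 hs hr δ hδ
    refine ⟨c, hc, C, fun N hN ρ hρ => ?_⟩
    refine h N hN ρ hρ (related s k r N ρ) fun p => ?_
    rw [related, Finset.mem_filter]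
    exact Iff.rfl

end Pool.Agent.Results.MP_e21eee_nt.SparseRelations
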